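import Pool.Agent.Helper903.ES.Main

set_option autoImplicit false

namespace Pool.Agent.Results.MP_56e41f_co.LargeRetention

open Finset

/-- `G` contains a copy of `T` -/
def Contains {V W : Type} (T : SimpleGraph W) (G : SimpleGraph V) : Prop :=
  ∃ f : W → V, Function.Injective f ∧ ∀ a b, T.Adj a b → G.Adj (f a) (f b)

open Classical in
/-- probability that the random subgraph `G_p` has property `A` -/
noncomputable def retProb {V : Type} [Fintype V] (G : SimpleGraph V) (p : ℝ)
    (A : SimpleGraph V → Prop) : ℝ :=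
  ∑ F ∈ G.edgeFinset.powerset, if A (SimpleGraph.fromEdgeSet (F : Set (Sym2 V)))
    then p ^ F.card * (1 - p) ^ (G.edgeFinset.card - F.card) else 0

/-- variance of the binomial distribution in terms of subsets -/
theorem var_subsets {α : Type*} (s : Finset α) (p : ℝ) :
    ∑ F ∈ s.powerset, p ^ F.card * (1 - p) ^ (s.card - F.card) * ((F.card : ℝ) - p * s.card) ^ 2 =
      s.card * p * (1 - p) := by
  have h1 := Finset.sum_powerset_apply_card
    (fun j => p ^ j * (1 - p) ^ (s.card - j) * ((j : ℝ) - p * s.card) ^ 2) (x := s)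
  rw [h1]
  have h2 := congrArg (Polynomial.eval p) (bernsteinPolynomial.variance (R := ℝ) s.card)
  simp only [Polynomial.eval_finsetSum, bernsteinPolynomial, Polynomial.eval_mul,
    Polynomial.eval_pow, Polynomial.eval_sub, Polynomial.eval_X,
    Polynomial.eval_natCast, Polynomial.eval_one, nsmul_eq_mul] at h2
  rw [← h2]
  apply Finset.sum_congr rfl
  intro j _
  rw [nsmul_eq_mul]
  ring

theorem es_contains {V W : Type} [Fintype V] [Fintype W] (G : SimpleGraph V)
    (T : SimpleGraph W) (hT : T.IsTree) (k : ℕ) (hW : Fintype.card W = k + 1)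
    (h : (k - 1) * Fintype.card V < 2 * G.edgeSet.ncard) : Contains T G := by
  classical
  have hedge : G.edgeSet.ncard = G.edgeFinset.card := by
    rw [← SimpleGraph.coe_edgeFinset, Set.ncard_coe_finset]
  rw [hedge] at h
  obtain ⟨f, hf⟩ := ES903.erdos_sos G k h T hT hW
  exact ⟨f, f.injective, hf⟩

open Classical in
/-- Chebyshev: if every `F ⊆ E(G)` failing `A` is smaller than the mean by `g > 0`,
then `A` holds with probability at least `1 - e(G) p (1-p) / g^2`. -/
theorem cheb {V : Type} [Fintype V] (G : SimpleGraph V) (p : ℝ) (hp0 : 0 ≤ p) (hp1 : p ≤ 1)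
    (A : SimpleGraph V → Prop) (g : ℝ) (hg : 0 < g)
    (h : ∀ F ∈ G.edgeFinset.powerset, ¬ A (SimpleGraph.fromEdgeSet (F : Set (Sym2 V))) →
      (F.card : ℝ) + g ≤ p * G.edgeFinset.card) :
    1 - G.edgeFinset.card * p * (1 - p) / g ^ 2 ≤ retProb G p A := by
  have htot : ∑ F ∈ G.edgeFinset.powerset, p ^ F.card * (1 - p) ^ (G.edgeFinset.card - F.card) =
      1 := by
    rw [Finset.sum_pow_mul_eq_add_pow]
    norm_num
  have hvar := var_subsets G.edgeFinset p
  have hw : ∀ F : Finset (Sym2 V), 0 ≤ p ^ F.card * (1 - p) ^ (G.edgeFinset.card - F.card) := by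
    intro F
    have : 0 ≤ 1 - p := by linarith
    positivity
  have key : 1 - retProb G p A ≤ G.edgeFinset.card * p * (1 - p) / g ^ 2 := by
    have hsub : 1 - retProb G p A = ∑ F ∈ G.edgeFinset.powerset,
        (p ^ F.card * (1 - p) ^ (G.edgeFinset.card - F.card) -
          if A (SimpleGraph.fromEdgeSet (F : Set (Sym2 V)))
          then p ^ F.card * (1 - p) ^ (G.edgeFinset.card - F.card) else 0) := by
      rw [Finset.sum_sub_distrib, htot, retProb]
    rw [le_div_iff₀ (by positivity), ← hvar, hsub, Finset.sum_mul]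
    apply Finset.sum_le_sum
    intro F hF
    by_cases hA : A (SimpleGraph.fromEdgeSet (F : Set (Sym2 V)))
    · rw [if_pos hA, sub_self, zero_mul]
      exact mul_nonneg (hw F) (sq_nonneg _)
    · rw [if_neg hA, sub_zero]
      apply mul_le_mul_of_nonneg_left _ (hw F)
      have h1 := h F hF hA
      have h2 : g ≤ p * G.edgeFinset.card - F.card := by linarith
      have h3 : g ^ 2 ≤ (p * G.edgeFinset.card - F.card) ^ 2 := by gcongr
      nlinarith
  linarith

open Classical in
/-- `G_p` contains `T` with probability at least `1 - 1/(16 δ n)` when `T` has `(1-c) d` vertices,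
`d` is the average degree of the `n`-vertex graph `G`, and `p ≥ 1 - c + δ`. -/
theorem result (c δ : ℝ) (hδ : 0 < δ) (V W : Type) [Fintype V] [Fintype W] [Nonempty V]
    (G : SimpleGraph V) (T : SimpleGraph W) (hT : T.IsTree)
    (hcard : (Fintype.card W : ℝ) = (1 - c) * (2 * G.edgeFinset.card / Fintype.card V))
    (p : ℝ) (hp0 : 0 ≤ p) (hp1 : p ≤ 1) (hp : 1 - c + δ ≤ p) :
    1 - 1 / (16 * δ * Fintype.card V) ≤ retProb G p (Contains T) := by
  have hn : (0 : ℝ) < Fintype.card V := by exact_mod_cast Fintype.card_pos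
  have hWne := hT.connected.nonempty
  have hW : 0 < Fintype.card W := Fintype.card_pos
  have hWr : (0 : ℝ) < Fintype.card W := by exact_mod_cast hW
  set m : ℝ := (G.edgeFinset.card : ℝ) with hm
  set n : ℝ := (Fintype.card V : ℝ) with hnn
  have hm0 : 0 ≤ m := Nat.cast_nonneg _
  have hmpos : 0 < m := by
    rcases hm0.lt_or_eq with h | h
    · exact h
    · exfalso
      rw [← h, mul_zero, zero_div, mul_zero] at hcard
      linarith
  have hcm : (Fintype.card W : ℝ) * n = 2 * ((1 - c) * m) := by
    rw [hcard]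
    field_simp
  have hg : 0 < δ * m + n := by positivity
  have hch := cheb G p hp0 hp1 (Contains T) (δ * m + n) hg ?_
  · refine le_trans ?_ hch
    have h1 : m * p * (1 - p) / (δ * m + n) ^ 2 ≤ 1 / (16 * δ * n) := by
      rw [div_le_div_iff₀ (by positivity) (by positivity)]
      have h2 : p * (1 - p) ≤ 1 / 4 := by nlinarith [sq_nonneg (p - 1 / 2)]
      have h3 : 4 * (δ * m * n) ≤ (δ * m + n) ^ 2 := by nlinarith [sq_nonneg (δ * m - n)]
      have h4 : m * p * (1 - p) * (16 * δ * n) = 16 * (p * (1 - p)) * (δ * m * n) := by ring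
      have h5 : 0 ≤ δ * m * n := by positivity
      rw [h4]
      nlinarith
    linarith
  · intro F hF hA
    rw [Finset.mem_powerset] at hF
    have hedge : (SimpleGraph.fromEdgeSet (F : Set (Sym2 V))).edgeSet.ncard = F.card := by
      have : (SimpleGraph.fromEdgeSet (F : Set (Sym2 V))).edgeSet = (F : Set (Sym2 V)) := by
        ext e
        rw [SimpleGraph.edgeSet_fromEdgeSet]
        constructor
        · intro h
          exact h.1
        · intro h
          exact ⟨h, G.not_isDiag_of_mem_edgeFinset (hF h)⟩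
      rw [this, Set.ncard_coe_finset]
    by_contra hcon
    push Not at hcon
    apply hA
    rcases Nat.lt_or_ge 1 (Fintype.card W) with h2 | h2
    · apply es_contains _ T hT (Fintype.card W - 1) (by omega)
      rw [hedge]
      have h4 : p * m - (δ * m + n) < F.card := by linarith
      have h5 : (1 - c + δ) * m ≤ p * m := mul_le_mul_of_nonneg_right hp hm0
      obtain ⟨w, hw⟩ : ∃ w, Fintype.card W = w + 2 := ⟨Fintype.card W - 2, by omega⟩
      have hw' : (Fintype.card W : ℝ) = (w : ℝ) + 2 := by rw [hw]; push_cast; ring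
      have h6 : Fintype.card W - 1 - 1 = w := by omega
      rw [h6]
      rw [hw'] at hcm
      have h3 : ((w * Fintype.card V : ℕ) : ℝ) < ((2 * F.card : ℕ) : ℝ) := by
        rw [Nat.cast_mul, Nat.cast_mul]
        show (w : ℝ) * n < ((2 : ℕ) : ℝ) * (F.card : ℝ)
        push_cast
        nlinarith
      exact_mod_cast h3
    · obtain ⟨w, hw⟩ := Fintype.card_eq_one_iff.1 (by omega : Fintype.card W = 1)
      obtain ⟨v⟩ := (inferInstance : Nonempty V)
      refine ⟨fun _ => v, fun a b _ => (hw a).trans (hw b).symm, fun a b hab => ?_⟩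
      exact absurd ((hw a).trans (hw b).symm) hab.ne

end Pool.Agent.Results.MP_56e41f_co.LargeRetention
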